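import Mathlib

/-!
# Counting the orders of a finite set compatible with a relation
-/

set_option autoImplicit false

namespace Pool.Agent.CMP

open Finset Classical

/-- the minimal elements of `S` -/
noncomputable def mn (R : ℕ → ℕ → Prop) (S : Finset ℕ) : Finset ℕ :=
  S.filter (fun t => ∀ b ∈ S, b ≠ t → ¬ R b t)

/-- the maximal elements of `S` -/
noncomputable def mx (R : ℕ → ℕ → Prop) (S : Finset ℕ) : Finset ℕ :=
  S.filter (fun t => ∀ b ∈ S, b ≠ t → ¬ R t b)

/-- number of compatible orders, with fuel -/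
noncomputable def leF (R : ℕ → ℕ → Prop) : ℕ → Finset ℕ → ℕ
  | 0, _ => 1
  | (k + 1), S => ∑ s ∈ mn R S, leF R k (S.erase s)

/-- number of orders of `S` compatible with `R` -/
noncomputable def le (R : ℕ → ℕ → Prop) (S : Finset ℕ) : ℕ := leF R S.card S

theorem mem_mn {R : ℕ → ℕ → Prop} {S : Finset ℕ} {t : ℕ} :
    t ∈ mn R S ↔ t ∈ S ∧ ∀ b ∈ S, b ≠ t → ¬ R b t := by simp [mn]

theorem mem_mx {R : ℕ → ℕ → Prop} {S : Finset ℕ} {t : ℕ} :
    t ∈ mx R S ↔ t ∈ S ∧ ∀ b ∈ S, b ≠ t → ¬ R t b := by simp [mx]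

theorem le_empty (R : ℕ → ℕ → Prop) : le R ∅ = 1 := by simp [le, leF]

theorem le_step (R : ℕ → ℕ → Prop) {S : Finset ℕ} (h : S.Nonempty) :
    le R S = ∑ s ∈ mn R S, le R (S.erase s) := by
  obtain ⟨k, hk⟩ : ∃ k, S.card = k + 1 := ⟨S.card - 1, by have := h.card_pos; omega⟩
  unfold le
  rw [hk]
  simp only [leF]
  refine sum_congr rfl fun s hs => ?_
  rw [card_erase_of_mem (mem_mn.1 hs).1, hk]
  rfl

theorem le_single (R : ℕ → ℕ → Prop) (a : ℕ) : le R {a} = 1 := by
  rw [le_step R (singleton_nonempty a)]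
  have : mn R {a} = {a} := by
    ext t
    simp only [mem_mn, mem_singleton]
    constructor
    · exact fun h => h.1
    · rintro rfl
      exact ⟨rfl, fun b hb hne => absurd hb hne⟩
  rw [this, sum_singleton]
  simp [le_empty]

/-- recursion at the top -/
theorem le_max (R : ℕ → ℕ → Prop) : ∀ (k : ℕ) {S : Finset ℕ}, S.card = k → S.Nonempty →
    le R S = ∑ t ∈ mx R S, le R (S.erase t) := by
  intro k
  induction k with
  | zero =>
    intro S hS hne
    exact absurd (card_eq_zero.1 hS) hne.ne_empty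
  | succ k ih =>
    intro S hS hne
    rcases Nat.eq_zero_or_pos k with rfl | hk
    · obtain ⟨a, rfl⟩ := card_eq_one.1 hS
      rw [le_single]
      have : mx R {a} = {a} := by
        ext t
        simp only [mem_mx, mem_singleton]
        constructor
        · exact fun h => h.1
        · rintro rfl
          exact ⟨rfl, fun b hb hne => absurd hb hne⟩
      rw [this, sum_singleton]
      simp [le_empty]
    · have key : ∀ s ∈ mn R S, le R (S.erase s) =
          ∑ t ∈ mx R S, if t ≠ s then le R ((S.erase s).erase t) else 0 := by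
        intro s hs
        have hs' := mem_mn.1 hs
        have hc : (S.erase s).card = k := by rw [card_erase_of_mem hs'.1, hS]; rfl
        rw [ih hc (card_pos.1 (by omega)), ← sum_filter]
        refine sum_congr ?_ fun _ _ => rfl
        ext t
        simp only [mem_filter, mem_mx, mem_erase]
        constructor
        · rintro ⟨⟨h1, h2⟩, h3⟩
          refine ⟨⟨h2, fun b hb hbt => ?_⟩, h1⟩
          by_cases hbs : b = s
          · subst hbs
            exact hs'.2 t h2 (Ne.symm hbt)
          · exact h3 b ⟨hbs, hb⟩ hbt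
        · rintro ⟨⟨h2, h3⟩, h1⟩
          exact ⟨⟨h1, h2⟩, fun b hb hbt => h3 b hb.2 hbt⟩
      have key2 : ∀ t ∈ mx R S, le R (S.erase t) =
          ∑ s ∈ mn R S, if t ≠ s then le R ((S.erase s).erase t) else 0 := by
        intro t ht
        have ht' := mem_mx.1 ht
        have hc : (S.erase t).card = k := by rw [card_erase_of_mem ht'.1, hS]; rfl
        rw [le_step R (card_pos.1 (by omega : 0 < (S.erase t).card)), ← sum_filter]
        refine sum_congr ?_ fun s _ => by rw [erase_right_comm]
        ext s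
        simp only [mem_filter, mem_mn, mem_erase]
        constructor
        · rintro ⟨⟨h1, h2⟩, h3⟩
          refine ⟨⟨h2, fun b hb hbt => ?_⟩, Ne.symm h1⟩
          by_cases hbs : b = t
          · subst hbs
            exact ht'.2 s h2 (Ne.symm hbt)
          · exact h3 b ⟨hbs, hb⟩ hbt
        · rintro ⟨⟨h2, h3⟩, h1⟩
          exact ⟨⟨Ne.symm h1, h2⟩, fun b hb hbt => h3 b hb.2 hbt⟩
      rw [le_step R hne, sum_congr rfl key, sum_congr rfl key2, sum_comm]

theorem le_mx (R : ℕ → ℕ → Prop) {S : Finset ℕ} (h : S.Nonempty) :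
    le R S = ∑ t ∈ mx R S, le R (S.erase t) := le_max R _ rfl h

/-- invariance under isomorphism -/
theorem le_iso {R R' : ℕ → ℕ → Prop} {f : ℕ → ℕ} : ∀ (k : ℕ) {S : Finset ℕ}, S.card = k →
    Set.InjOn f S → (∀ a ∈ S, ∀ b ∈ S, R' (f a) (f b) ↔ R a b) →
    le R' (S.image f) = le R S := by
  intro k
  induction k with
  | zero =>
    intro S hS _ _
    rw [card_eq_zero.1 hS]; simp [le_empty]
  | succ k ih =>
    intro S hS hinj hR
    have hne : S.Nonempty := card_pos.1 (by omega)
    rw [le_step R hne, le_step R' (hne.image f)]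
    have hmn : mn R' (S.image f) = (mn R S).image f := by
      ext t
      simp only [mem_mn, mem_image]
      constructor
      · rintro ⟨⟨a, ha, rfl⟩, h⟩
        refine ⟨a, ⟨ha, fun b hb hba hR' => ?_⟩, rfl⟩
        exact h (f b) ⟨b, hb, rfl⟩ (fun he => hba (hinj hb ha he)) ((hR b hb a ha).2 hR')
      · rintro ⟨a, ⟨ha, h⟩, rfl⟩
        refine ⟨⟨a, ha, rfl⟩, ?_⟩
        rintro _ ⟨b, hb, rfl⟩ hne hR'
        exact h b hb (fun he => hne (by rw [he])) ((hR b hb a ha).1 hR')
    rw [hmn, sum_image (fun a ha b hb h => hinj (mem_mn.1 ha).1 (mem_mn.1 hb).1 h)]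
    refine sum_congr rfl fun s hs => ?_
    have hs' := (mem_mn.1 hs).1
    have : (S.image f).erase (f s) = (S.erase s).image f := by
      ext t
      simp only [mem_erase, mem_image]
      constructor
      · rintro ⟨h1, a, ha, rfl⟩
        exact ⟨a, ⟨fun he => h1 (by rw [he]), ha⟩, rfl⟩
      · rintro ⟨a, ⟨h1, ha⟩, rfl⟩
        exact ⟨fun he => h1 (hinj ha hs' he), a, ha, rfl⟩
    rw [this]
    exact ih (by rw [card_erase_of_mem hs', hS]; rfl)
      (hinj.mono (by intro x hx; exact mem_of_mem_erase hx))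
      (fun a ha b hb => hR a (mem_of_mem_erase ha) b (mem_of_mem_erase hb))

/-- invariance under duality -/
theorem le_rev {R R' : ℕ → ℕ → Prop} {f : ℕ → ℕ} : ∀ (k : ℕ) {S : Finset ℕ}, S.card = k →
    Set.InjOn f S → (∀ a ∈ S, ∀ b ∈ S, R' (f a) (f b) ↔ R b a) →
    le R' (S.image f) = le R S := by
  intro k
  induction k with
  | zero =>
    intro S hS _ _
    rw [card_eq_zero.1 hS]; simp [le_empty]
  | succ k ih =>
    intro S hS hinj hR
    have hne : S.Nonempty := card_pos.1 (by omega)
    rw [le_mx R hne, le_step R' (hne.image f)]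
    have hmn : mn R' (S.image f) = (mx R S).image f := by
      ext t
      simp only [mem_mn, mem_mx, mem_image]
      constructor
      · rintro ⟨⟨a, ha, rfl⟩, h⟩
        refine ⟨a, ⟨ha, fun b hb hba hR' => ?_⟩, rfl⟩
        exact h (f b) ⟨b, hb, rfl⟩ (fun he => hba (hinj hb ha he)) ((hR b hb a ha).2 hR')
      · rintro ⟨a, ⟨ha, h⟩, rfl⟩
        refine ⟨⟨a, ha, rfl⟩, ?_⟩
        rintro _ ⟨b, hb, rfl⟩ hne hR'
        exact h b hb (fun he => hne (by rw [he])) ((hR b hb a ha).1 hR')
    rw [hmn, sum_image (fun a ha b hb h => hinj (mem_mx.1 ha).1 (mem_mx.1 hb).1 h)]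
    refine sum_congr rfl fun s hs => ?_
    have hs' := (mem_mx.1 hs).1
    have : (S.image f).erase (f s) = (S.erase s).image f := by
      ext t
      simp only [mem_erase, mem_image]
      constructor
      · rintro ⟨h1, a, ha, rfl⟩
        exact ⟨a, ⟨fun he => h1 (by rw [he]), ha⟩, rfl⟩
      · rintro ⟨a, ⟨h1, ha⟩, rfl⟩
        exact ⟨fun he => h1 (hinj ha hs' he), a, ha, rfl⟩
    rw [this]
    exact ih (by rw [card_erase_of_mem hs', hS]; rfl)
      (hinj.mono (by intro x hx; exact mem_of_mem_erase hx))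
      (fun a ha b hb => hR a (mem_of_mem_erase ha) b (mem_of_mem_erase hb))

/-- `T` is up-closed in `S` -/
def Up (R : ℕ → ℕ → Prop) (S T : Finset ℕ) : Prop := ∀ a ∈ S \ T, ∀ b ∈ T, ¬ R b a

/-- the subsets of `S` left after `L` steps -/
noncomputable def lev (R : ℕ → ℕ → Prop) (S : Finset ℕ) (L : ℕ) : Finset (Finset ℕ) :=
  S.powerset.filter (fun T => T.card + L = S.card ∧ Up R S T)

theorem mem_lev {R : ℕ → ℕ → Prop} {S T : Finset ℕ} {L : ℕ} :
    T ∈ lev R S L ↔ T ⊆ S ∧ T.card + L = S.card ∧ Up R S T := by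
  simp [lev]

theorem lev_zero (R : ℕ → ℕ → Prop) (S : Finset ℕ) : lev R S 0 = {S} := by
  ext T
  rw [mem_lev, mem_singleton]
  constructor
  · rintro ⟨h1, h2, -⟩
    exact eq_of_subset_of_card_le h1 (by omega)
  · rintro rfl
    exact ⟨Subset.refl _, by omega, by intro a ha; simp at ha⟩

/-- the cut lemma -/
theorem cut (R : ℕ → ℕ → Prop) : ∀ (L : ℕ) {S : Finset ℕ}, L ≤ S.card →
    le R S = ∑ T ∈ lev R S L, le R (S \ T) * le R T := by
  intro L
  induction L with
  | zero =>
    intro S _
    rw [lev_zero, sum_singleton]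
    simp [le_empty]
  | succ L ih =>
    intro S hL
    have hne : S.Nonempty := card_pos.1 (by omega)
    rw [le_step R hne]
    have h1 : ∀ s ∈ mn R S, le R (S.erase s) =
        ∑ T ∈ S.powerset, if T ∈ lev R (S.erase s) L then le R (S.erase s \ T) * le R T
          else 0 := by
      intro s hs
      have hs' := (mem_mn.1 hs).1
      rw [ih (by rw [card_erase_of_mem hs']; omega), ← sum_filter]
      refine sum_congr ?_ fun _ _ => rfl
      ext T
      rw [mem_filter, mem_powerset]
      refine ⟨fun h => ⟨(mem_lev.1 h).1.trans (erase_subset _ _), h⟩, fun h => h.2⟩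
    rw [sum_congr rfl h1, sum_comm]
    have h2 : ∀ T ∈ S.powerset, (∑ s ∈ mn R S, if T ∈ lev R (S.erase s) L then
          le R (S.erase s \ T) * le R T else 0) =
        if T ∈ lev R S (L + 1) then le R (S \ T) * le R T else 0 := by
      intro T hT
      rw [mem_powerset] at hT
      by_cases hTl : T ∈ lev R S (L + 1)
      · rw [if_pos hTl]
        obtain ⟨-, hc, hup⟩ := mem_lev.1 hTl
        have hne' : (S \ T).Nonempty := by
          rw [← card_pos, card_sdiff_of_subset hT]; omega
        rw [le_step R hne', sum_mul, ← sum_filter]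
        refine sum_congr ?_ fun s hs => ?_
        · ext s
          simp only [mem_filter, mem_mn, mem_lev, mem_sdiff]
          constructor
          · rintro ⟨⟨hsS, hmin⟩, hsub, hc', hup'⟩
            exact ⟨⟨hsS, fun h => by simpa using (mem_erase.1 (hsub h)).1⟩,
              fun b hb hbs => hmin b hb.1 hbs⟩
          · rintro ⟨⟨hsS, hsT⟩, hmin⟩
            refine ⟨⟨hsS, fun b hb hbs => ?_⟩, ?_, ?_, ?_⟩
            · by_cases hbT : b ∈ T
              · exact hup s (mem_sdiff.2 ⟨hsS, hsT⟩) b hbT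
              · exact hmin b ⟨hb, hbT⟩ hbs
            · intro x hx
              exact mem_erase.2 ⟨fun h => hsT (h ▸ hx), hT hx⟩
            · rw [card_erase_of_mem hsS]; omega
            · intro a ha b hb
              rw [mem_sdiff, mem_erase] at ha
              exact hup a (mem_sdiff.2 ⟨ha.1.2, ha.2⟩) b hb
        · have : S.erase s \ T = (S \ T).erase s := by
            ext x; simp only [mem_sdiff, mem_erase]; tauto
          rw [this]
      · rw [if_neg hTl]
        refine sum_eq_zero fun s hs => ?_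
        rw [if_neg]
        intro h
        apply hTl
        obtain ⟨hsub, hc, hup⟩ := mem_lev.1 h
        have hs' := mem_mn.1 hs
        rw [card_erase_of_mem hs'.1] at hc
        refine mem_lev.2 ⟨hT, by have := hne.card_pos; omega, ?_⟩
        intro a ha b hb
        by_cases has : a = s
        · subst has
          exact hs'.2 b (hT hb) (mem_erase.1 (hsub hb)).1
        · rw [mem_sdiff] at ha
          exact hup a (mem_sdiff.2 ⟨mem_erase.2 ⟨has, ha.1⟩, ha.2⟩) b hb
    rw [sum_congr rfl h2, ← sum_filter]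
    refine sum_congr ?_ fun _ _ => rfl
    ext T
    rw [mem_filter, mem_powerset]
    exact ⟨fun h => h.2, fun h => ⟨(mem_lev.1 h).1, h⟩⟩

/-- more relations, fewer orders -/
theorem le_mono {R R' : ℕ → ℕ → Prop} (h : ∀ a b, R a b → R' a b) : ∀ (k : ℕ) {S : Finset ℕ},
    S.card = k → le R' S ≤ le R S := by
  intro k
  induction k with
  | zero =>
    intro S hS
    rw [card_eq_zero.1 hS]; simp [le_empty]
  | succ k ih =>
    intro S hS
    have hne : S.Nonempty := card_pos.1 (by omega)
    rw [le_step R hne, le_step R' hne]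
    have hsub : mn R' S ⊆ mn R S := by
      intro t ht
      rw [mem_mn] at ht ⊢
      exact ⟨ht.1, fun b hb hbt hR => ht.2 b hb hbt (h _ _ hR)⟩
    calc ∑ s ∈ mn R' S, le R' (S.erase s) ≤ ∑ s ∈ mn R' S, le R (S.erase s) :=
          sum_le_sum fun s hs => ih (by rw [card_erase_of_mem (mem_mn.1 hs).1, hS]; rfl)
      _ ≤ _ := sum_le_sum_of_subset hsub

theorem le_le_factorial (R : ℕ → ℕ → Prop) : ∀ (k : ℕ) {S : Finset ℕ},
    S.card = k → le R S ≤ k.factorial := by
  intro k
  induction k with
  | zero =>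
    intro S hS
    rw [card_eq_zero.1 hS]; simp [le_empty]
  | succ k ih =>
    intro S hS
    have hne : S.Nonempty := card_pos.1 (by omega)
    rw [le_step R hne]
    calc ∑ s ∈ mn R S, le R (S.erase s) ≤ ∑ s ∈ mn R S, k.factorial :=
          sum_le_sum fun s hs => ih (by rw [card_erase_of_mem (mem_mn.1 hs).1, hS]; rfl)
      _ = (mn R S).card * k.factorial := by simp
      _ ≤ (k + 1) * k.factorial := by
          refine Nat.mul_le_mul_right _ ?_
          rw [← hS]
          exact card_le_card (filter_subset _ _)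
      _ = (k + 1).factorial := (Nat.factorial_succ k).symm

/-- the relations with `R a b → a ≤ b` have compatible orders -/
theorem one_le_le {R : ℕ → ℕ → Prop} : ∀ (k : ℕ) {S : Finset ℕ}, S.card = k →
    (∀ a ∈ S, ∀ b ∈ S, R a b → a ≤ b) → 1 ≤ le R S := by
  intro k
  induction k with
  | zero =>
    intro S hS _
    rw [card_eq_zero.1 hS]; simp [le_empty]
  | succ k ih =>
    intro S hS hR
    have hne : S.Nonempty := card_pos.1 (by omega)
    rw [le_step R hne]
    have hm : S.min' hne ∈ mn R S := by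
      rw [mem_mn]
      refine ⟨min'_mem _ _, fun b hb hbt h => hbt ?_⟩
      exact le_antisymm (hR b hb _ (min'_mem _ _) h) (min'_le _ _ hb)
    refine le_trans ?_ (single_le_sum (f := fun s => le R (S.erase s)) (fun _ _ => Nat.zero_le _) hm)
    exact ih (by rw [card_erase_of_mem (min'_mem _ _), hS]; rfl)
      (fun a ha b hb => hR a (mem_of_mem_erase ha) b (mem_of_mem_erase hb))

/-- only the relation on `S` matters -/
theorem le_congr {R R' : ℕ → ℕ → Prop} {S : Finset ℕ}
    (h : ∀ a ∈ S, ∀ b ∈ S, R' a b ↔ R a b) : le R' S = le R S := by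
  have := le_iso (R := R) (R' := R') (f := id) _ (S := S) rfl (Set.injOn_id _) h
  simpa using this

theorem Up.trans {R : ℕ → ℕ → Prop} {S T U : Finset ℕ} (h1 : Up R S T) (h2 : Up R T U)
    (hUT : U ⊆ T) : Up R S U := by
  intro a ha b hb
  rw [mem_sdiff] at ha
  by_cases haT : a ∈ T
  · exact h2 a (mem_sdiff.2 ⟨haT, ha.2⟩) b hb
  · exact h1 a (mem_sdiff.2 ⟨ha.1, haT⟩) b (hUT hb)

end Pool.Agent.CMP
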