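import Mathlib
import Pool.Agent.CMP.Count

/-!
# Banded orders: the comparison probabilities are local
-/

set_option autoImplicit false

namespace Pool.Agent.CMP

open Finset Classical

/-- `R` is a partial order on `{0, …, n-1}`, naturally numbered, and elements at distance at least
`D` are comparable -/
structure NP (D n : ℕ) (R : ℕ → ℕ → Prop) : Prop where
  refl : ∀ i, i < n → R i i
  le : ∀ i j, i < n → j < n → R i j → i ≤ j
  trans : ∀ i j k, i < n → j < n → k < n → R i j → R j k → R i k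
  band : ∀ i j, i < n → j < n → i + D ≤ j → R i j

/-- add the pair `(x, y)` -/
def addp (R : ℕ → ℕ → Prop) (x y : ℕ) : ℕ → ℕ → Prop := fun a b => R a b ∨ (a = x ∧ b = y)

/-- probability that `x` comes before `y` in a random compatible order of `S` -/
noncomputable def pr (R : ℕ → ℕ → Prop) (S : Finset ℕ) (x y : ℕ) : ℝ :=
  (CMP.le (addp R x y) S : ℝ) / (CMP.le R S : ℝ)

section

variable {D n : ℕ} {R : ℕ → ℕ → Prop} (h : NP D n R) (hD : 1 ≤ D)

include h

theorem lev_lt {T : Finset ℕ} {k i : ℕ} (hT : T ∈ lev R (range n) k) (hi : i < n) (hiT : i ∉ T) :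
    i < k + D := by
  by_contra hcon
  push Not at hcon
  obtain ⟨hsub, hc, hup⟩ := mem_lev.1 hT
  have h1 : range (k + 1) ⊆ range n \ T := by
    intro j hj
    rw [mem_range] at hj
    have hjn : j < n := by omega
    refine mem_sdiff.2 ⟨mem_range.2 hjn, fun hjT => ?_⟩
    exact hup i (mem_sdiff.2 ⟨mem_range.2 hi, hiT⟩) j hjT (h.band j i hjn hi (by omega))
  have h2 := card_le_card h1
  rw [card_range, card_sdiff_of_subset hsub, card_range] at h2
  rw [card_range] at hc
  omega

include hD in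
theorem lev_gt {T : Finset ℕ} {k i : ℕ} (hT : T ∈ lev R (range n) k) (hiT : i ∈ T) :
    k < i + D := by
  by_contra hcon
  push Not at hcon
  obtain ⟨hsub, hc, hup⟩ := mem_lev.1 hT
  have hi : i < n := mem_range.1 (hsub hiT)
  have h1 : range n \ T ⊆ (range (i + D)).erase i := by
    intro j hj
    rw [mem_erase, mem_range]
    refine ⟨fun he => ?_, ?_⟩
    · rw [he] at hj
      exact (mem_sdiff.1 hj).2 hiT
    · by_contra hc'
      push Not at hc'
      exact hup j hj i hiT (h.band i j hi (mem_range.1 (mem_sdiff.1 hj).1) hc')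
  have h2 := card_le_card h1
  rw [card_erase_of_mem (mem_range.2 (by omega)), card_range, card_sdiff_of_subset hsub,
    card_range] at h2
  rw [card_range] at hc
  omega

include hD in
theorem lev_eq {T : Finset ℕ} {k L : ℕ} (hT : T ∈ lev R (range n) k) (hL : 2 * D ≤ L) :
    lev R T L = lev R (range n) (k + L) := by
  have hT' := mem_lev.1 hT
  ext U
  constructor
  · intro hU
    obtain ⟨h1, h2, h3⟩ := mem_lev.1 hU
    exact mem_lev.2 ⟨h1.trans hT'.1, by omega, hT'.2.2.trans h3 h1⟩
  · intro hU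
    obtain ⟨h1, h2, h3⟩ := mem_lev.1 hU
    have hsub : U ⊆ T := by
      intro i hi
      by_contra hiT
      have a1 := lev_lt h hT (mem_range.1 (h1 hi)) hiT
      have a2 := lev_gt h hD hU hi
      omega
    refine mem_lev.2 ⟨hsub, by omega, ?_⟩
    intro a ha b hb
    rw [mem_sdiff] at ha
    exact h3 a (mem_sdiff.2 ⟨hT'.1 ha.1, ha.2⟩) b hb

theorem ico_mem_lev {k : ℕ} (hk : k ≤ n) : Ico k n ∈ lev R (range n) k := by
  refine mem_lev.2 ⟨?_, ?_, ?_⟩
  · intro i hi
    rw [mem_Ico] at hi
    exact mem_range.2 hi.2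
  · rw [Nat.card_Ico, card_range]; omega
  · intro a ha b hb hR
    rw [mem_sdiff, mem_range, mem_Ico] at ha
    rw [mem_Ico] at hb
    have := h.le b a hb.2 ha.1 hR
    omega

theorem le_pos {T : Finset ℕ} (hT : T ⊆ range n) : 1 ≤ CMP.le R T :=
  one_le_le _ rfl fun a ha b hb hR => h.le a b (mem_range.1 (hT ha)) (mem_range.1 (hT hb)) hR

/-- the cut lemma for the counts with and without the event -/
theorem cut_addp {T : Finset ℕ} {k L x y : ℕ} (hT : T ∈ lev R (range n) k)
    (hL : L ≤ T.card) (hx : x < n) (hy : y < n) (hkx : k + L + D ≤ x) (hky : k + L + D ≤ y) :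
    CMP.le (addp R x y) T = ∑ U ∈ lev R T L, CMP.le R (T \ U) * CMP.le (addp R x y) U := by
  have hT' := mem_lev.1 hT
  have hmem : ∀ U ∈ lev R T L, U ∈ lev R (range n) (k + L) := by
    intro U hU
    obtain ⟨h1, h2, h3⟩ := mem_lev.1 hU
    exact mem_lev.2 ⟨h1.trans hT'.1, by omega, hT'.2.2.trans h3 h1⟩
  have hxU : ∀ U ∈ lev R T L, x ∈ U := by
    intro U hU
    by_contra hc
    have := lev_lt h (hmem U hU) hx hc
    omega
  have hyU : ∀ U ∈ lev R T L, y ∈ U := by
    intro U hU
    by_contra hc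
    have := lev_lt h (hmem U hU) hy hc
    omega
  rw [cut (addp R x y) L hL]
  have hlev : lev (addp R x y) T L = lev R T L := by
    ext U
    constructor
    · intro hU
      obtain ⟨h1, h2, h3⟩ := mem_lev.1 hU
      exact mem_lev.2 ⟨h1, h2, fun a ha b hb hR => h3 a ha b hb (Or.inl hR)⟩
    · intro hU
      obtain ⟨h1, h2, h3⟩ := mem_lev.1 hU
      refine mem_lev.2 ⟨h1, h2, fun a ha b hb hR => ?_⟩
      rcases hR with hR | ⟨-, rfl⟩
      · exact h3 a ha b hb hR
      · exact (mem_sdiff.1 ha).2 (hyU U hU)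
  rw [hlev]
  refine sum_congr rfl fun U hU => ?_
  congr 1
  refine le_congr fun a ha b hb => ?_
  unfold addp
  constructor
  · rintro (h1 | ⟨rfl, -⟩)
    · exact h1
    · exact absurd (hxU U hU) (mem_sdiff.1 ha).2
  · exact Or.inl

include hD in
/-- one contraction step -/
theorem contract {x y k : ℕ} (hx : x < n) (hy : y < n)
    (hkx : k + 2 * D + D ≤ x) (hky : k + 2 * D + D ≤ y) {α β : ℝ}
    (hα : ∀ U ∈ lev R (range n) (k + 2 * D), α * CMP.le R U ≤ CMP.le (addp R x y) U)
    (hβ : ∀ U ∈ lev R (range n) (k + 2 * D), (CMP.le (addp R x y) U : ℝ) ≤ β * CMP.le R U) :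
    ∃ α' β' : ℝ, β' - α' ≤ (1 - 1 / ((2 * D).factorial : ℝ)) * (β - α) ∧
      (∀ T ∈ lev R (range n) k, α' * CMP.le R T ≤ CMP.le (addp R x y) T) ∧
      (∀ T ∈ lev R (range n) k, (CMP.le (addp R x y) T : ℝ) ≤ β' * CMP.le R T) := by
  set G : ℝ := ((2 * D).factorial : ℝ) with hG
  set V := lev R (range n) (k + 2 * D) with hV
  set F : ℝ := ∑ U ∈ V, (CMP.le R U : ℝ) with hF
  set A : ℝ := ∑ U ∈ V, ((CMP.le (addp R x y) U : ℝ) - α * CMP.le R U) with hA
  set B : ℝ := ∑ U ∈ V, (β * CMP.le R U - (CMP.le (addp R x y) U : ℝ)) with hB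
  have hGpos : 0 < G := by
    rw [hG]; exact_mod_cast Nat.factorial_pos _
  have hFpos : 0 < F := by
    have hm := ico_mem_lev h (k := k + 2 * D) (by omega)
    refine lt_of_lt_of_le ?_ (single_le_sum (f := fun U => (CMP.le R U : ℝ))
      (fun _ _ => Nat.cast_nonneg _) hm)
    have := le_pos h (mem_lev.1 hm).1
    exact_mod_cast this
  have hApos : 0 ≤ A := sum_nonneg fun U hU => by have := hα U hU; linarith
  have hBpos : 0 ≤ B := sum_nonneg fun U hU => by have := hβ U hU; linarith
  have hAB : A + B = (β - α) * F := by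
    rw [hA, hB, hF, ← sum_add_distrib, mul_sum]
    refine sum_congr rfl fun U _ => by ring
  have hsum : ∀ T ∈ lev R (range n) k,
      (CMP.le R T : ℝ) = ∑ U ∈ V, (CMP.le R (T \ U) : ℝ) * CMP.le R U ∧
      (CMP.le (addp R x y) T : ℝ) =
        ∑ U ∈ V, (CMP.le R (T \ U) : ℝ) * CMP.le (addp R x y) U ∧
      (∀ U ∈ V, (1 : ℝ) ≤ CMP.le R (T \ U)) ∧ (∀ U ∈ V, (CMP.le R (T \ U) : ℝ) ≤ G) := by
    intro T hT
    have hT' := mem_lev.1 hT
    rw [card_range] at hT'
    have hL : 2 * D ≤ T.card := by omega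
    have he := lev_eq h hD hT (le_refl (2 * D))
    refine ⟨?_, ?_, ?_, ?_⟩
    · rw [cut R (2 * D) hL, he]; push_cast; rfl
    · rw [cut_addp h hT hL hx hy hkx hky, he]; push_cast; rfl
    · intro U hU
      have := le_pos h (T := T \ U) (sdiff_subset.trans hT'.1)
      exact_mod_cast this
    · intro U hU
      rw [hV, ← he] at hU
      obtain ⟨h1, h2, h3⟩ := mem_lev.1 hU
      have := le_le_factorial R (2 * D) (S := T \ U) (by rw [card_sdiff_of_subset h1]; omega)
      rw [hG]
      exact_mod_cast this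
  refine ⟨α + A / (G * F), β - B / (G * F), ?_, ?_, ?_⟩
  · have : β - B / (G * F) - (α + A / (G * F)) = β - α - (A + B) / (G * F) := by ring
    rw [this, hAB]
    have : (β - α) * F / (G * F) = (β - α) / G := by field_simp
    rw [this]
    apply le_of_eq
    ring
  · intro T hT
    obtain ⟨e1, e2, g1, g2⟩ := hsum T hT
    have hle : (CMP.le R T : ℝ) ≤ G * F := by
      rw [e1, hF, mul_sum]
      exact sum_le_sum fun U hU => mul_le_mul_of_nonneg_right (g2 U hU) (Nat.cast_nonneg _)
    have hAle : A ≤ (CMP.le (addp R x y) T : ℝ) - α * CMP.le R T := by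
      rw [e1, e2, mul_sum, ← sum_sub_distrib, hA]
      refine sum_le_sum fun U hU => ?_
      have := hα U hU
      have := g1 U hU
      nlinarith
    have h3 : A / (G * F) * CMP.le R T ≤ A := by
      rw [div_mul_eq_mul_div, div_le_iff₀ (by positivity)]
      exact mul_le_mul_of_nonneg_left hle hApos
    rw [add_mul]
    linarith
  · intro T hT
    obtain ⟨e1, e2, g1, g2⟩ := hsum T hT
    have hle : (CMP.le R T : ℝ) ≤ G * F := by
      rw [e1, hF, mul_sum]
      exact sum_le_sum fun U hU => mul_le_mul_of_nonneg_right (g2 U hU) (Nat.cast_nonneg _)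
    have hBle : B ≤ β * CMP.le R T - (CMP.le (addp R x y) T : ℝ) := by
      rw [e1, e2, mul_sum, ← sum_sub_distrib, hB]
      refine sum_le_sum fun U hU => ?_
      have := hβ U hU
      have := g1 U hU
      nlinarith
    have h3 : B / (G * F) * CMP.le R T ≤ B := by
      rw [div_mul_eq_mul_div, div_le_iff₀ (by positivity)]
      exact mul_le_mul_of_nonneg_left hle hBpos
    rw [sub_mul]
    linarith

include hD in
theorem contract_iter {x y : ℕ} (hx : x < n) (hy : y < n) : ∀ (m k : ℕ),
    k + 2 * D * m + D ≤ x → k + 2 * D * m + D ≤ y →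
    ∃ α β : ℝ, β - α ≤ (1 - 1 / ((2 * D).factorial : ℝ)) ^ m ∧
      (∀ T ∈ lev R (range n) k, α * CMP.le R T ≤ CMP.le (addp R x y) T) ∧
      (∀ T ∈ lev R (range n) k, (CMP.le (addp R x y) T : ℝ) ≤ β * CMP.le R T) := by
  intro m
  induction m with
  | zero =>
    intro k _ _
    refine ⟨0, 1, by simp, fun T _ => by simp, fun T _ => ?_⟩
    rw [one_mul]
    have := le_mono (R := R) (R' := addp R x y) (fun a b hab => Or.inl hab) _ (S := T) rfl
    exact_mod_cast this
  | succ m ih =>
    intro k h1 h2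
    have e : 2 * D * (m + 1) = 2 * D * m + 2 * D := by ring
    rw [e] at h1 h2
    obtain ⟨α, β, hab, hα, hβ⟩ := ih (k + 2 * D) (by omega) (by omega)
    obtain ⟨α', β', hab', hα', hβ'⟩ := contract h hD hx hy (k := k) (by omega) (by omega) hα hβ
    refine ⟨α', β', hab'.trans ?_, hα', hβ'⟩
    rw [pow_succ']
    refine mul_le_mul_of_nonneg_left hab ?_
    have h4 : (1 : ℝ) ≤ ((2 * D).factorial : ℝ) := by exact_mod_cast Nat.factorial_pos _
    have : 1 / ((2 * D).factorial : ℝ) ≤ 1 := by
      rw [div_le_one (by positivity)]; exact h4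
    linarith

include hD in
/-- truncation at the bottom -/
theorem trunc_left {x y k m : ℕ} (hx : x < n) (hy : y < n)
    (hkx : k + 2 * D * m + D ≤ x) (hky : k + 2 * D * m + D ≤ y) :
    |pr R (range n) x y - pr R (Ico k n) x y| ≤ (1 - 1 / ((2 * D).factorial : ℝ)) ^ m := by
  obtain ⟨α, β, hab, hα, hβ⟩ := contract_iter h hD hx hy m k hkx hky
  have h0 : range n ∈ lev R (range n) 0 := by rw [lev_zero]; exact mem_singleton_self _
  have hk : k ≤ n := by omega
  have hpos : (0 : ℝ) < CMP.le R (range n) := by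
    have := le_pos h (Subset.refl (range n)); exact_mod_cast this
  have hIco := ico_mem_lev h hk
  have hpos' : (0 : ℝ) < CMP.le R (Ico k n) := by
    have := le_pos h (mem_lev.1 hIco).1; exact_mod_cast this
  have e1 : (CMP.le R (range n) : ℝ) =
      ∑ U ∈ lev R (range n) k, (CMP.le R (range n \ U) : ℝ) * CMP.le R U := by
    rw [cut R k (by rw [card_range]; exact hk)]; push_cast; rfl
  have e2 : (CMP.le (addp R x y) (range n) : ℝ) =
      ∑ U ∈ lev R (range n) k, (CMP.le R (range n \ U) : ℝ) * CMP.le (addp R x y) U := by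
    have hkx' : 0 + k + D ≤ x := by
      have := Nat.zero_le (2 * D * m); omega
    have hky' : 0 + k + D ≤ y := by
      have := Nat.zero_le (2 * D * m); omega
    rw [cut_addp h h0 (L := k) (by rw [card_range]; exact hk) hx hy hkx' hky']
    push_cast; rfl
  have a1 : α * CMP.le R (range n) ≤ CMP.le (addp R x y) (range n) := by
    rw [e1, e2, mul_sum]
    refine sum_le_sum fun U hU => ?_
    have := mul_le_mul_of_nonneg_left (hα U hU) (Nat.cast_nonneg (α := ℝ) (CMP.le R (range n \ U)))
    linarith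
  have a2 : (CMP.le (addp R x y) (range n) : ℝ) ≤ β * CMP.le R (range n) := by
    rw [e1, e2, mul_sum]
    refine sum_le_sum fun U hU => ?_
    have := mul_le_mul_of_nonneg_left (hβ U hU) (Nat.cast_nonneg (α := ℝ) (CMP.le R (range n \ U)))
    linarith
  have b1 := hα _ hIco
  have b2 := hβ _ hIco
  have c1 : α ≤ pr R (range n) x y := by unfold pr; rw [le_div_iff₀ hpos]; exact a1
  have c2 : pr R (range n) x y ≤ β := by unfold pr; rw [div_le_iff₀ hpos]; exact a2
  have c3 : α ≤ pr R (Ico k n) x y := by unfold pr; rw [le_div_iff₀ hpos']; exact b1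
  have c4 : pr R (Ico k n) x y ≤ β := by unfold pr; rw [div_le_iff₀ hpos']; exact b2
  rw [abs_le]
  constructor <;> linarith

end

/-- isomorphisms preserve the probabilities -/
theorem pr_iso {R R' : ℕ → ℕ → Prop} {f : ℕ → ℕ} {S : Finset ℕ} (hf : Set.InjOn f S)
    (hR : ∀ a ∈ S, ∀ b ∈ S, R' (f a) (f b) ↔ R a b) {x y : ℕ} (hx : x ∈ S) (hy : y ∈ S) :
    pr R' (S.image f) (f x) (f y) = pr R S x y := by
  unfold pr
  rw [le_iso _ rfl hf hR, le_iso (R := addp R x y) _ rfl hf]
  intro a ha b hb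
  unfold addp
  rw [hR a ha b hb, hf.eq_iff ha hx, hf.eq_iff hb hy]

theorem pr_rev {R R' : ℕ → ℕ → Prop} {f : ℕ → ℕ} {S : Finset ℕ} (hf : Set.InjOn f S)
    (hR : ∀ a ∈ S, ∀ b ∈ S, R' (f a) (f b) ↔ R b a) {x y : ℕ} (hx : x ∈ S) (hy : y ∈ S) :
    pr R' (S.image f) (f y) (f x) = pr R S x y := by
  unfold pr
  rw [le_rev _ rfl hf hR, le_rev (R := addp R x y) _ rfl hf]
  intro a ha b hb
  unfold addp
  rw [hR a ha b hb, hf.eq_iff ha hy, hf.eq_iff hb hx]
  tauto

theorem NP.shift {D n : ℕ} {R : ℕ → ℕ → Prop} (h : NP D n R) {k : ℕ} (hk : k ≤ n) :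
    NP D (n - k) (fun i j => R (i + k) (j + k)) where
  refl i hi := h.refl _ (by omega)
  le i j hi hj hR := by have := h.le _ _ (by omega) (by omega) hR; omega
  trans i j l hi hj hl h1 h2 := h.trans _ _ _ (by omega) (by omega) (by omega) h1 h2
  band i j hi hj hij := h.band _ _ (by omega) (by omega) (by omega)

theorem NP.rev {D n : ℕ} {R : ℕ → ℕ → Prop} (h : NP D n R) :
    NP D n (fun i j => R (n - 1 - j) (n - 1 - i)) where
  refl i hi := h.refl _ (by omega)
  le i j hi hj hR := by have := h.le _ _ (by omega) (by omega) hR; omega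
  trans i j l hi hj hl h1 h2 := h.trans _ _ _ (by omega) (by omega) (by omega) h2 h1
  band i j hi hj hij := h.band _ _ (by omega) (by omega) (by omega)

/-- truncation at the top -/
theorem trunc_right {D n : ℕ} {R : ℕ → ℕ → Prop} (h : NP D n R) (hD : 1 ≤ D) {x y k m : ℕ}
    (hk : k ≤ n) (hkx : x + 1 + 2 * D * m + D ≤ k) (hky : y + 1 + 2 * D * m + D ≤ k) :
    |pr R (range n) x y - pr R (range k) x y| ≤ (1 - 1 / ((2 * D).factorial : ℝ)) ^ m := by
  set f : ℕ → ℕ := fun i => n - 1 - i with hf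
  have hinj : Set.InjOn f (range n) := by
    intro a ha b hb hab
    simp only [hf, coe_range, Set.mem_Iio] at *
    omega
  have hx : x < n := by omega
  have hy : y < n := by omega
  have himg : (range n).image f = range n := by
    ext t
    simp only [mem_image, mem_range, hf]
    constructor
    · rintro ⟨a, ha, rfl⟩; omega
    · intro ht; exact ⟨n - 1 - t, by omega, by omega⟩
  have himg2 : (range k).image f = Ico (n - k) n := by
    ext t
    simp only [mem_image, mem_range, mem_Ico, hf]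
    constructor
    · rintro ⟨a, ha, rfl⟩; omega
    · intro ht; exact ⟨n - 1 - t, by omega, by omega⟩
  have hR : ∀ a ∈ range n, ∀ b ∈ range n,
      (fun i j => R (n - 1 - j) (n - 1 - i)) (f a) (f b) ↔ R b a := by
    intro a ha b hb
    rw [mem_range] at ha hb
    simp only [hf]
    rw [show n - 1 - (n - 1 - b) = b by omega, show n - 1 - (n - 1 - a) = a by omega]
  have e1 := pr_rev (R := R) (R' := fun i j => R (n - 1 - j) (n - 1 - i)) (S := range n)
    hinj hR (mem_range.2 hx) (mem_range.2 hy)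
  have hsub : (range k : Set ℕ) ⊆ range n := by
    intro a ha
    simp only [coe_range, Set.mem_Iio] at *
    omega
  have e2 := pr_rev (S := range k) (R := R) (R' := fun i j => R (n - 1 - j) (n - 1 - i))
    (hinj.mono hsub)
    (fun a ha b hb => hR a (mem_range.2 (by have := mem_range.1 ha; omega)) b
      (mem_range.2 (by have := mem_range.1 hb; omega)))
    (x := x) (y := y) (mem_range.2 (by omega)) (mem_range.2 (by omega))
  rw [himg] at e1
  rw [himg2] at e2
  rw [← e1, ← e2]
  exact trunc_left h.rev hD (by simp only [hf]; omega) (by simp only [hf]; omega)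
    (by simp only [hf]; omega) (by simp only [hf]; omega)

/-- the probability is determined by a window -/
theorem trunc {D n : ℕ} {R : ℕ → ℕ → Prop} (h : NP D n R) (hD : 1 ≤ D) {x y k l m : ℕ}
    (hkx : k ≤ x) (hky : k ≤ y) (hxl : x < l) (hyl : y < l) (hl : l ≤ n)
    (h1 : k = 0 ∨ (k + 2 * D * m + D ≤ x ∧ k + 2 * D * m + D ≤ y))
    (h2 : l = n ∨ (x + 1 + 2 * D * m + D ≤ l ∧ y + 1 + 2 * D * m + D ≤ l)) :
    |pr R (range n) x y - pr R (Ico k l) x y| ≤
      2 * (1 - 1 / ((2 * D).factorial : ℝ)) ^ m := by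
  set ρ : ℝ := (1 - 1 / ((2 * D).factorial : ℝ)) ^ m with hρ
  have hρ0 : 0 ≤ ρ := by
    refine pow_nonneg ?_ _
    have h4 : (1 : ℝ) ≤ ((2 * D).factorial : ℝ) := by exact_mod_cast Nat.factorial_pos _
    have : 1 / ((2 * D).factorial : ℝ) ≤ 1 := by
      rw [div_le_one (by positivity)]; exact h4
    linarith
  have a1 : |pr R (range n) x y - pr R (Ico k n) x y| ≤ ρ := by
    rcases h1 with rfl | ⟨h1, h1'⟩
    · rw [Nat.Ico_zero_eq_range, sub_self, abs_zero]; exact hρ0
    · exact trunc_left h hD (by omega) (by omega) h1 h1'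
  have hkn : k ≤ n := by omega
  set f : ℕ → ℕ := fun i => i + k with hf
  have hinj : ∀ s : Set ℕ, Set.InjOn f s := by
    intro s a ha b hb hab
    simp only [hf] at hab
    omega
  have himg : ∀ b, k ≤ b → (range (b - k)).image f = Ico k b := by
    intro b hb
    ext t
    simp only [mem_image, mem_range, mem_Ico, hf]
    constructor
    · rintro ⟨a, ha, rfl⟩; omega
    · intro ht; exact ⟨t - k, by omega, by omega⟩
  have e : ∀ b, k ≤ b → x < b → y < b →
      pr R (Ico k b) x y = pr (fun i j => R (i + k) (j + k)) (range (b - k)) (x - k) (y - k) := by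
    intro b hb hxb hyb
    have := pr_iso (R := fun i j => R (i + k) (j + k)) (R' := R) (S := range (b - k)) (hinj _)
      (fun a _ c _ => Iff.rfl) (x := x - k) (y := y - k) (mem_range.2 (by omega))
      (mem_range.2 (by omega))
    rw [himg b hb] at this
    simp only [hf] at this
    rw [← this, show x - k + k = x by omega, show y - k + k = y by omega]
  have a2 : |pr R (Ico k n) x y - pr R (Ico k l) x y| ≤ ρ := by
    rcases h2 with rfl | ⟨h2, h2'⟩
    · rw [sub_self, abs_zero]; exact hρ0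
    · rw [e n hkn (by omega) (by omega), e l (by omega) hxl hyl]
      exact trunc_right (h.shift hkn) hD (by omega) (by omega) (by omega)
  calc |pr R (range n) x y - pr R (Ico k l) x y|
      ≤ |pr R (range n) x y - pr R (Ico k n) x y| + |pr R (Ico k n) x y - pr R (Ico k l) x y| :=
        abs_sub_le _ _ _
    _ ≤ 2 * ρ := by linarith

end Pool.Agent.CMP
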