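import Mathlib
import Pool.Agent.CMP.Mix
import Pool.Agent.Helper1.BalanceDefs

/-!
# The count of compatible orders and the linear extensions (as permutations)
-/

set_option autoImplicit false

namespace Pool.Agent.CMP

open Finset Classical

/-- the compatible orders, as lists -/
noncomputable def LF (R : ℕ → ℕ → Prop) : ℕ → Finset ℕ → Finset (List ℕ)
  | 0, _ => {[]}
  | (k + 1), S => (mn R S).biUnion fun a => (LF R k (S.erase a)).image (List.cons a)

theorem card_LF (R : ℕ → ℕ → Prop) : ∀ (k : ℕ) (S : Finset ℕ), (LF R k S).card = leF R k S := by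
  intro k
  induction k with
  | zero => intro S; simp [LF, leF]
  | succ k ih =>
    intro S
    simp only [LF, leF]
    rw [card_biUnion]
    · refine sum_congr rfl fun a _ => ?_
      rw [card_image_of_injective _ (List.cons_injective), ih]
    · intro a _ b _ hab
      rw [Function.onFun, disjoint_left]
      intro l hl hl'
      rw [mem_image] at hl hl'
      obtain ⟨l1, -, rfl⟩ := hl
      obtain ⟨l2, -, h2⟩ := hl'
      exact hab (List.cons.inj h2).1.symm

theorem mem_LF (R : ℕ → ℕ → Prop) : ∀ (k : ℕ) (S : Finset ℕ), S.card = k → ∀ l : List ℕ,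
    l ∈ LF R k S ↔ l.Nodup ∧ l.toFinset = S ∧ l.Pairwise (fun a b => ¬ R b a) := by
  intro k
  induction k with
  | zero =>
    intro S hS l
    rw [card_eq_zero] at hS
    subst hS
    simp only [LF, mem_singleton, List.toFinset_eq_empty_iff]
    constructor
    · rintro rfl
      simp
    · exact fun h => h.2.1
  | succ k ih =>
    intro S hS l
    cases l with
    | nil =>
      constructor
      · intro h
        simp [LF] at h
      · rintro ⟨-, h, -⟩
        rw [List.toFinset_nil] at h
        rw [← h] at hS
        simp at hS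
    | cons a l =>
      have h1 : a :: l ∈ LF R (k + 1) S ↔ a ∈ mn R S ∧ l ∈ LF R k (S.erase a) := by
        simp only [LF, mem_biUnion, mem_image]
        constructor
        · rintro ⟨b, hb, l', hl', he⟩
          obtain ⟨rfl, rfl⟩ := List.cons.inj he
          exact ⟨hb, hl'⟩
        · rintro ⟨h1, h2⟩
          exact ⟨a, h1, l, h2, rfl⟩
      rw [h1, List.nodup_cons, List.toFinset_cons, List.pairwise_cons]
      constructor
      · rintro ⟨h2, h3⟩
        have h2' := mem_mn.1 h2
        rw [ih _ (by rw [card_erase_of_mem h2'.1, hS]; rfl)] at h3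
        obtain ⟨h4, h5, h6⟩ := h3
        have hl : ∀ b, b ∈ l ↔ b ∈ S.erase a := fun b => by rw [← h5, List.mem_toFinset]
        refine ⟨⟨fun h => ?_, h4⟩, ?_, fun b hb => ?_, h6⟩
        · exact (mem_erase.1 ((hl a).1 h)).1 rfl
        · rw [h5, insert_erase h2'.1]
        · have := mem_erase.1 ((hl b).1 hb)
          exact h2'.2 b this.2 this.1
      · rintro ⟨⟨h2, h3⟩, h4, h5, h6⟩
        have haS : a ∈ S := h4 ▸ mem_insert_self _ _
        have hSl : S.erase a = l.toFinset := by
          rw [← h4, erase_insert]
          rwa [List.mem_toFinset]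
        refine ⟨mem_mn.2 ⟨haS, fun b hb hba => h5 b ?_⟩, ?_⟩
        · rw [← List.mem_toFinset, ← hSl]
          exact mem_erase.2 ⟨hba, hb⟩
        · rw [ih _ (by rw [card_erase_of_mem haS, hS]; rfl)]
          exact ⟨h3, hSl.symm, h6⟩

/-- the linear extensions are counted by `le` -/
theorem card_perm {n : ℕ} (R : ℕ → ℕ → Prop) (e : Equiv.Perm (Fin n)) :
    Nat.card {σ : Equiv.Perm (Fin n) // ∀ a b, R (e a) (e b) → σ a ≤ σ b} = le R (range n) := by
  have h0 : le R (range n) = Nat.card {l // l ∈ LF R n (range n)} := by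
    rw [Nat.card_eq_fintype_card, Fintype.card_coe, card_LF]
    unfold le
    rw [card_range]
  rw [h0]
  have hmem := mem_LF R n (range n) (card_range n)
  have hf : ∀ σ : {σ : Equiv.Perm (Fin n) // ∀ a b, R (e a) (e b) → σ a ≤ σ b},
      List.ofFn (fun i => ((e (σ.1.symm i) : Fin n) : ℕ)) ∈ LF R n (range n) := by
    rintro ⟨σ, hσ⟩
    rw [hmem]
    refine ⟨?_, ?_, ?_⟩
    · rw [List.nodup_ofFn]
      intro i j hij
      exact σ.symm.injective (e.injective (Fin.ext hij))
    · ext t
      rw [List.mem_toFinset, List.mem_ofFn, mem_range]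
      constructor
      · rintro ⟨i, rfl⟩
        exact (e (σ.symm i)).isLt
      · intro ht
        exact ⟨σ (e.symm ⟨t, ht⟩), by simp⟩
    · rw [List.pairwise_ofFn]
      intro i j hij hR
      have := hσ _ _ hR
      simp only [Equiv.apply_symm_apply] at this
      exact absurd this (not_le.2 hij)
  refine Nat.card_congr (Equiv.ofBijective (fun σ => ⟨_, hf σ⟩) ⟨?_, ?_⟩)
  · intro σ σ' h
    have h1 := List.ofFn_injective (Subtype.ext_iff.1 h)
    have h2 : σ.1.symm = σ'.1.symm := by
      ext i
      have := congrFun h1 i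
      exact congrArg Fin.val (e.injective (Fin.ext this))
    exact Subtype.ext (by rw [← Equiv.symm_symm σ.1, h2, Equiv.symm_symm])
  · rintro ⟨l, hl⟩
    obtain ⟨h1, h2, h3⟩ := (hmem l).1 hl
    have hlen : l.length = n := by
      rw [← List.toFinset_card_of_nodup h1, h2, card_range]
    have hlt : ∀ i : Fin n, l.get (i.cast hlen.symm) < n := fun i => by
      rw [← mem_range, ← h2, List.mem_toFinset]
      exact List.get_mem _ _
    have hinj : Function.Injective (fun i : Fin n => (⟨l.get (i.cast hlen.symm), hlt i⟩ : Fin n)) := by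
      intro i j hij
      have := List.nodup_iff_injective_get.1 h1 (Fin.mk.inj hij)
      exact Fin.cast_injective _ this
    set τ : Equiv.Perm (Fin n) := Equiv.ofBijective _ (Finite.injective_iff_bijective.1 hinj)
      with hτ
    have hτi : ∀ i, (τ i : ℕ) = l.get (i.cast hlen.symm) := fun i => rfl
    refine ⟨⟨(τ.trans e.symm).symm, fun a b hR => ?_⟩, ?_⟩
    · by_contra hcon
      push Not at hcon
      have h4 := List.pairwise_iff_get.1 h3
        (((τ.trans e.symm).symm b).cast hlen.symm) (((τ.trans e.symm).symm a).cast hlen.symm) hcon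
      rw [← hτi, ← hτi] at h4
      apply h4
      simpa using hR
    · apply Subtype.ext
      simp only
      apply List.ext_get
      · simp [hlen]
      · intro i hi1 hi2
        simp [hτ]

end Pool.Agent.CMP
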