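import Mathlib
import Pool.Agent.CMP.Mix

/-!
# Equal windows, and cutting out the part between two equal windows
-/

set_option autoImplicit false

namespace Pool.Agent.CMP

open Finset Classical

/-- the windows of radius `W` around `p` (in `R'`, on `n'` elements) and around `i` (in `R`, on `n`
elements) are equal, ends included -/
structure Sim (R' : ℕ → ℕ → Prop) (n' : ℕ) (R : ℕ → ℕ → Prop) (n W p i : ℕ) : Prop where
  hp : p < n'
  hi : i < n
  hl : ∀ t, t ≤ W → (t ≤ p ↔ t ≤ i)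
  hr : ∀ t, t ≤ W → (p + t < n' ↔ i + t < n)
  rel : ∀ u v, u < n' → v < n' → u ≤ p + W → p ≤ u + W → v ≤ p + W → p ≤ v + W →
    (R' u v ↔ R (u + i - p) (v + i - p))

theorem Sim.refl {R : ℕ → ℕ → Prop} {n W p : ℕ} (h : p < n) : Sim R n R n W p p :=
  ⟨h, h, fun _ _ => Iff.rfl, fun _ _ => Iff.rfl, fun u v _ _ _ _ _ _ => by
    rw [Nat.add_sub_cancel, Nat.add_sub_cancel]⟩

theorem Sim.conv {R R' : ℕ → ℕ → Prop} {n n' W p i : ℕ} (h : Sim R' n' R n W p i) {u : ℕ}
    (hu : u < n') (h1 : u ≤ p + W) (h2 : p ≤ u + W) :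
    u + i - p < n ∧ u + i - p ≤ i + W ∧ i ≤ (u + i - p) + W ∧ p ≤ u + i ∧
      (u + i - p) + p - i = u := by
  rcases le_total p u with hpu | hpu
  · have := (h.hr (u - p) (by omega)).1 (by omega)
    omega
  · have := (h.hl (p - u) (by omega)).1 (by omega)
    have := h.hi
    omega

theorem Sim.symm {R R' : ℕ → ℕ → Prop} {n n' W p i : ℕ} (h : Sim R' n' R n W p i) :
    Sim R n R' n' W i p where
  hp := h.hi
  hi := h.hp
  hl t ht := (h.hl t ht).symm
  hr t ht := (h.hr t ht).symm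
  rel u v hu hv h1 h2 h3 h4 := by
    have key : ∀ u, u < n → u ≤ i + W → i ≤ u + W → u + p - i < n' ∧ u + p - i ≤ p + W ∧
        p ≤ (u + p - i) + W ∧ (u + p - i) + i - p = u := by
      intro u hu h1 h2
      rcases le_total i u with hpu | hpu
      · have := (h.hr (u - i) (by omega)).2 (by omega)
        omega
      · have := (h.hl (i - u) (by omega)).2 (by omega)
        have := h.hp
        omega
    obtain ⟨a1, a2, a3, a4⟩ := key u hu h1 h2
    obtain ⟨b1, b2, b3, b4⟩ := key v hv h3 h4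
    have := h.rel _ _ a1 b1 a2 a3 b2 b3
    rw [a4, b4] at this
    exact this.symm

theorem Sim.trans {R R' R'' : ℕ → ℕ → Prop} {n n' n'' W q p i : ℕ}
    (h : Sim R'' n'' R' n' W q p) (h' : Sim R' n' R n W p i) : Sim R'' n'' R n W q i where
  hp := h.hp
  hi := h'.hi
  hl t ht := (h.hl t ht).trans (h'.hl t ht)
  hr t ht := (h.hr t ht).trans (h'.hr t ht)
  rel u v hu hv h1 h2 h3 h4 := by
    obtain ⟨a1, a2, a3, a4, a5⟩ := h.conv hu h1 h2
    obtain ⟨b1, b2, b3, b4, b5⟩ := h.conv hv h3 h4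
    obtain ⟨c1, c2, c3, c4, c5⟩ := h'.conv a1 a2 a3
    obtain ⟨d1, d2, d3, d4, d5⟩ := h'.conv b1 b2 b3
    rw [h.rel u v hu hv h1 h2 h3 h4, h'.rel _ _ a1 b1 a2 a3 b2 b3]
    rw [show u + p - q + i - p = u + i - q by omega, show v + p - q + i - p = v + i - q by omega]

/-- the probabilities are nearly equal at similar places -/
theorem pr_sim {D n n' : ℕ} {R R' : ℕ → ℕ → Prop} (h : NP D n R) (h' : NP D n' R') (hD : 1 ≤ D)
    {W p i m : ℕ} (hW : 2 * D * m + 2 * D ≤ W) (hs : Sim R' n' R n W p i) {x y : ℕ}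
    (hx : x < n') (hy : y < n') (hx1 : x ≤ p + D) (hx2 : p ≤ x + D) (hy1 : y ≤ p + D)
    (hy2 : p ≤ y + D) :
    |pr R' (range n') x y - pr R (range n) (x + i - p) (y + i - p)| ≤
      4 * (1 - 1 / ((2 * D).factorial : ℝ)) ^ m := by
  have hp := hs.hp
  have hi := hs.hi
  obtain ⟨a1, a2, a3, a4, a5⟩ := hs.conv hx (by omega) (by omega)
  obtain ⟨b1, b2, b3, b4, b5⟩ := hs.conv hy (by omega) (by omega)
  have hlW := hs.hl W le_rfl
  have hrW := hs.hr W le_rfl
  -- the two windows
  have hwin : (p < W → i = p) ∧ (n' ≤ p + W → n + p = n' + i) := by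
    constructor
    · intro hc
      have e1 := (hs.hl p (by omega)).1 le_rfl
      have e2 := hs.hl (p + 1) (by omega)
      omega
    · intro hc
      have e1 := hs.hr (n' - p) (by omega)
      have e2 := hs.hr (n' - p - 1) (by omega)
      omega
  have t1 := trunc h' hD (x := x) (y := y) (k := p - W) (l := min (p + W + 1) n') (m := m)
    (by omega) (by omega) (by omega) (by omega) (by omega)
    (by
      rcases le_total W p with hc | hc
      · right; omega
      · left; omega)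
    (by
      rcases lt_or_ge (p + W) n' with hc | hc
      · right; omega
      · left; omega)
  have t2 := trunc h hD (x := x + i - p) (y := y + i - p) (k := i - W)
    (l := min (i + W + 1) n) (m := m)
    (by omega) (by omega) (by omega) (by omega) (by omega)
    (by
      rcases le_total W i with hc | hc
      · right; omega
      · left; omega)
    (by
      rcases lt_or_ge (i + W) n with hc | hc
      · right; omega
      · left; omega)
  have himg : (Ico (p - W) (min (p + W + 1) n')).image (fun u => u + i - p) =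
      Ico (i - W) (min (i + W + 1) n) := by
    ext t
    simp only [mem_image, mem_Ico]
    constructor
    · rintro ⟨u, ⟨hu1, hu2⟩, rfl⟩
      obtain ⟨c1, c2, c3, c4, c5⟩ := hs.conv (u := u) (by omega) (by omega) (by omega)
      omega
    · rintro ⟨ht1, ht2⟩
      obtain ⟨c1, c2, c3, c4, c5⟩ := hs.symm.conv (u := t) (by omega) (by omega) (by omega)
      exact ⟨t + p - i, by omega, by omega⟩
  have hinj : Set.InjOn (fun u => u + i - p) (Ico (p - W) (min (p + W + 1) n') : Finset ℕ) := by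
    intro u hu v hv huv
    simp only [coe_Ico, Set.mem_Ico] at hu hv huv
    obtain ⟨c1, c2, c3, c4, c5⟩ := hs.conv (u := u) (by omega) (by omega) (by omega)
    obtain ⟨d1, d2, d3, d4, d5⟩ := hs.conv (u := v) (by omega) (by omega) (by omega)
    omega
  have e := pr_iso (R := R') (R' := R) (f := fun u => u + i - p)
    (S := Ico (p - W) (min (p + W + 1) n')) hinj
    (by
      intro a ha b hb
      rw [mem_Ico] at ha hb
      exact (hs.rel a b (by omega) (by omega) (by omega) (by omega) (by omega) (by omega)).symm)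
    (x := x) (y := y) (mem_Ico.2 (by omega)) (mem_Ico.2 (by omega))
  rw [himg] at e
  rw [abs_le] at *
  constructor <;> linarith [t1.1, t1.2, t2.1, t2.2, e]

/-- the type of a window of length `L` at `u` -/
noncomputable def ty (R : ℕ → ℕ → Prop) (L D u : ℕ) : Fin L → Fin D → Bool :=
  fun a t => decide (R (u + a) (u + a + t))

/-- cut out the part between `u` and `v = u + δ` -/
def R1 (R : ℕ → ℕ → Prop) (L u δ : ℕ) : ℕ → ℕ → Prop := fun p q =>
  (p ≤ q ∧ q < u + L ∧ R p q) ∨ (u ≤ p ∧ p ≤ q ∧ R (p + δ) (q + δ)) ∨ (p < u ∧ u + L ≤ q)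

section

variable {D n L u δ : ℕ} {R : ℕ → ℕ → Prop} (h : NP D n R) (hty : ty R L D u = ty R L D (u + δ))
  (hn : u + δ + L + D ≤ n)

include h hty hn

theorem agree {p q : ℕ} (hp : u ≤ p) (hpq : p ≤ q) (hq : q < u + L) :
    R p q ↔ R (p + δ) (q + δ) := by
  rcases lt_or_ge q (p + D) with hc | hc
  · have h1 := congrFun (congrFun hty ⟨p - u, by omega⟩) ⟨q - p, by omega⟩
    simp only [ty, decide_eq_decide] at h1
    rw [show u + (p - u) = p by omega, show p + (q - p) = q by omega,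
      show u + δ + (p - u) = p + δ by omega, show p + δ + (q - p) = q + δ by omega] at h1
    exact h1
  · exact ⟨fun _ => h.band _ _ (by omega) (by omega) (by omega),
      fun _ => h.band _ _ (by omega) (by omega) (by omega)⟩

theorem eqv1 {p q : ℕ} (hp : p < u + L) (hq : q < u + L) : R1 R L u δ p q ↔ R p q := by
  constructor
  · rintro (⟨-, -, h1⟩ | ⟨h1, h2, h3⟩ | ⟨-, h1⟩)
    · exact h1
    · exact (agree h hty hn h1 h2 hq).2 h3
    · omega
  · intro h1
    exact Or.inl ⟨h.le p q (by omega) (by omega) h1, hq, h1⟩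

theorem eqv2 {p q : ℕ} (hp : u ≤ p) (hpn : p + δ < n) (hqn : q + δ < n) :
    R1 R L u δ p q ↔ R (p + δ) (q + δ) := by
  constructor
  · rintro (⟨h1, h2, h3⟩ | ⟨-, -, h1⟩ | ⟨h1, -⟩)
    · exact (agree h hty hn hp h1 h2).1 h3
    · exact h1
    · omega
  · intro h1
    exact Or.inr (Or.inl ⟨hp, by have := h.le _ _ hpn hqn h1; omega, h1⟩)

theorem np_cut (hLD : D ≤ L) : NP D (n - δ) (R1 R L u δ) where
  refl i hi := by
    rcases lt_or_ge i (u + L) with hc | hc
    · exact (eqv1 h hty hn hc hc).2 (h.refl i (by omega))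
    · exact (eqv2 h hty hn (by omega) (by omega) (by omega)).2 (h.refl _ (by omega))
  le i j hi hj hR := by
    rcases hR with ⟨h1, -, -⟩ | ⟨-, h1, -⟩ | ⟨h1, h2⟩ <;> omega
  band i j hi hj hij := by
    rcases lt_or_ge j (u + L) with hc | hc
    · exact Or.inl ⟨by omega, hc, h.band _ _ (by omega) (by omega) hij⟩
    · rcases lt_or_ge i u with hc' | hc'
      · exact Or.inr (Or.inr ⟨hc', hc⟩)
      · exact Or.inr (Or.inl ⟨hc', by omega, h.band _ _ (by omega) (by omega) (by omega)⟩)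
  trans i j k hi hj hk h1 h2 := by
    have hij : i ≤ j := by
      rcases h1 with ⟨h1, -, -⟩ | ⟨-, h1, -⟩ | ⟨h1, h2⟩ <;> omega
    have hjk : j ≤ k := by
      rcases h2 with ⟨h1, -, -⟩ | ⟨-, h1, -⟩ | ⟨h1, h2⟩ <;> omega
    rcases lt_or_ge k (i + D) with hc | hc
    · rcases lt_or_ge k (u + L) with hc' | hc'
      · rw [eqv1 h hty hn (by omega) (by omega)] at h1 h2 ⊢
        exact h.trans i j k (by omega) (by omega) (by omega) h1 h2
      · rw [eqv2 h hty hn (by omega) (by omega) (by omega)] at h1 h2 ⊢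
        exact h.trans _ _ _ (by omega) (by omega) (by omega) h1 h2
    · rcases lt_or_ge k (u + L) with hc' | hc'
      · exact Or.inl ⟨by omega, hc', h.band _ _ (by omega) (by omega) hc⟩
      · rcases lt_or_ge i u with hc'' | hc''
        · exact Or.inr (Or.inr ⟨hc'', hc'⟩)
        · exact Or.inr (Or.inl ⟨hc'', by omega, h.band _ _ (by omega) (by omega) (by omega)⟩)

theorem sim_low {W p : ℕ} (hL : L = 2 * W + 1) (hp : p ≤ u + W) :
    Sim (R1 R L u δ) (n - δ) R n W p p where
  hp := by omega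
  hi := by omega
  hl t ht := Iff.rfl
  hr t ht := by constructor <;> intro <;> omega
  rel x y hx hy h1 h2 h3 h4 := by
    rw [Nat.add_sub_cancel, Nat.add_sub_cancel]
    exact eqv1 h hty hn (by omega) (by omega)

theorem sim_high {W p : ℕ} (hL : L = 2 * W + 1) (hp : u + W + 1 ≤ p) (hpn : p + δ < n) :
    Sim (R1 R L u δ) (n - δ) R n W p (p + δ) where
  hp := by omega
  hi := hpn
  hl t ht := by constructor <;> intro <;> omega
  hr t ht := by constructor <;> intro <;> omega
  rel x y hx hy h1 h2 h3 h4 := by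
    rw [show x + (p + δ) - p = x + δ by omega, show y + (p + δ) - p = y + δ by omega]
    exact eqv2 h hty hn (by omega) (by omega) (by omega)

end

/-- two equal windows exist among `2 ^ (D L) + 1` positions -/
theorem exists_ty (R : ℕ → ℕ → Prop) (L D s : ℕ) :
    ∃ u δ : ℕ, s ≤ u ∧ 1 ≤ δ ∧ u + δ ≤ s + 2 ^ (D * L) ∧ ty R L D u = ty R L D (u + δ) := by
  have hcard : Fintype.card (Fin L → Fin D → Bool) < Fintype.card (Fin (2 ^ (D * L) + 1)) := by
    simp only [Fintype.card_fun, Fintype.card_fin, Fintype.card_bool]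
    rw [← pow_mul]
    omega
  obtain ⟨a, b, hab, he⟩ := Fintype.exists_ne_map_eq_of_card_lt
    (fun a : Fin (2 ^ (D * L) + 1) => ty R L D (s + a)) hcard
  have hne : (a : ℕ) ≠ b := fun h => hab (Fin.ext h)
  rcases lt_or_gt_of_ne hne with hc | hc
  · refine ⟨s + a, b - a, by omega, by omega, by have := b.isLt; omega, ?_⟩
    rw [show s + (a : ℕ) + (b - a) = s + b by omega]
    exact he
  · refine ⟨s + b, a - b, by omega, by omega, by have := a.isLt; omega, ?_⟩
    rw [show s + (b : ℕ) + (a - b) = s + a by omega]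
    exact he.symm

/-- the cutting theorem -/
theorem cutting {D W : ℕ} (hDW : D ≤ 2 * W + 1) : ∀ (n : ℕ) (R : ℕ → ℕ → Prop), NP D n R →
    ∀ i1 i2 : ℕ, i1 < n → i2 < n →
    ∃ (m : ℕ) (R' : ℕ → ℕ → Prop), NP D m R' ∧
      m ≤ 3 * 2 ^ (D * (2 * W + 1)) + (2 * W + 1) + D ∧
      (∀ p, p < m → ∃ i, Sim R' m R n W p i) ∧ (∃ p, Sim R' m R n W p i1) ∧
      (∃ p, Sim R' m R n W p i2) := by
  intro n
  induction n using Nat.strong_induction_on with
  | _ n ih =>
    intro R h i1 i2 h1 h2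
    by_cases hn : n ≤ 3 * 2 ^ (D * (2 * W + 1)) + (2 * W + 1) + D
    · exact ⟨n, R, h, hn, fun p hp => ⟨p, Sim.refl hp⟩, ⟨i1, Sim.refl h1⟩, ⟨i2, Sim.refl h2⟩⟩
    · push Not at hn
      set L := 2 * W + 1 with hL
      set M := 2 ^ (D * L) with hM
      have hMpos : 1 ≤ M := Nat.one_le_two_pow
      -- a stretch avoiding the two protected positions
      obtain ⟨s, hs, hs1, hs2⟩ : ∃ s, s ≤ 2 * M ∧ (i1 ≤ s + W ∨ s + W + M + 1 ≤ i1) ∧
          (i2 ≤ s + W ∨ s + W + M + 1 ≤ i2) := by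
        by_cases c0 : (i1 ≤ 0 + W ∨ 0 + W + M + 1 ≤ i1) ∧ (i2 ≤ 0 + W ∨ 0 + W + M + 1 ≤ i2)
        · exact ⟨0, by omega, c0.1, c0.2⟩
        · by_cases c1 : (i1 ≤ M + W ∨ M + W + M + 1 ≤ i1) ∧ (i2 ≤ M + W ∨ M + W + M + 1 ≤ i2)
          · exact ⟨M, by omega, c1.1, c1.2⟩
          · refine ⟨2 * M, le_rfl, ?_, ?_⟩ <;> omega
      obtain ⟨u, δ, hu, hδ, huδ, hty⟩ := exists_ty R L D s
      rw [← hM] at huδ
      have hlen : u + δ + L + D ≤ n := by omega
      have hnp := np_cut h hty hlen hDW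
      have hj : ∀ i, i < n → (i ≤ s + W ∨ s + W + M + 1 ≤ i) →
          ∃ j, Sim (R1 R L u δ) (n - δ) R n W j i := by
        intro i hi hc
        rcases hc with hc | hc
        · exact ⟨i, sim_low h hty hlen hL (by omega)⟩
        · refine ⟨i - δ, ?_⟩
          have := sim_high h hty hlen (W := W) (p := i - δ) hL (by omega) (by omega)
          rwa [show i - δ + δ = i by omega] at this
      obtain ⟨j1, hj1⟩ := hj i1 h1 hs1
      obtain ⟨j2, hj2⟩ := hj i2 h2 hs2
      obtain ⟨m, R', hR', hm, hall, ⟨p1, hp1⟩, ⟨p2, hp2⟩⟩ :=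
        ih (n - δ) (by omega) (R1 R L u δ) hnp j1 j2 hj1.hp hj2.hp
      refine ⟨m, R', hR', hm, fun p hp => ?_, ⟨p1, hp1.trans hj1⟩, ⟨p2, hp2.trans hj2⟩⟩
      obtain ⟨j, hj⟩ := hall p hp
      rcases le_or_gt j (u + W) with hc | hc
      · exact ⟨j, hj.trans (sim_low h hty hlen hL hc)⟩
      · exact ⟨j + δ, hj.trans (sim_high h hty hlen hL (by omega) (by have := hj.hi; omega))⟩

end Pool.Agent.CMP
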