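import Mathlib
import Pool.Agent.CMP.Sim
import Pool.Agent.CMP.Perm

/-!
# Balance constant and width of banded orders; small posets with the same width and nearly the same
balance constant
-/

set_option autoImplicit false

namespace Pool.Agent.CMP

open Finset Classical
open Pool.Agent.Helper1.Balance

theorem exists_nat_aux {α : Type} [PartialOrder α] [Fintype α] {n : ℕ}
    (hc : Fintype.card α = n) : ∃ e : α ≃ Fin n, ∀ a b, a ≤ b → e a ≤ e b := by
  have : Fintype (LinearExtension α) := Fintype.ofEquiv α (Equiv.refl _)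
  have hc' : Fintype.card (LinearExtension α) = n :=
    (@Fintype.card_congr (LinearExtension α) α _ _ (Equiv.refl α)).trans hc
  let f := Fintype.orderIsoFinOfCardEq (LinearExtension α) hc'
  exact ⟨f.symm.toEquiv, fun a b h => f.symm.monotone (toLinearExtension.monotone h)⟩

/-- a finite poset has a natural labelling -/
theorem exists_nat {n : ℕ} {r : Fin n → Fin n → Prop} (h : IsPoset r) :
    ∃ e : Equiv.Perm (Fin n), ∀ a b, r a b → e a ≤ e b :=
  @exists_nat_aux (Fin n)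
    { le := r
      lt := fun a b => r a b ∧ ¬ r b a
      le_refl := h.1
      le_trans := h.2.1
      le_antisymm := h.2.2
      lt_iff_le_not_ge := fun _ _ => Iff.rfl } _ n (Fintype.card_fin n)

/-- the relation on numbers -/
def up {n : ℕ} (r : Fin n → Fin n → Prop) (e : Equiv.Perm (Fin n)) : ℕ → ℕ → Prop :=
  fun i j => ∃ a b : Fin n, (e a : ℕ) = i ∧ (e b : ℕ) = j ∧ r a b

theorem up_iff {n : ℕ} (r : Fin n → Fin n → Prop) (e : Equiv.Perm (Fin n)) (a b : Fin n) :
    up r e (e a) (e b) ↔ r a b := by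
  constructor
  · rintro ⟨a', b', h1, h2, h3⟩
    rwa [← e.injective (Fin.ext h1), ← e.injective (Fin.ext h2)]
  · exact fun h => ⟨a, b, rfl, rfl, h⟩

theorem prob_eq {n : ℕ} {r : Fin n → Fin n → Prop} {R : ℕ → ℕ → Prop} (e : Equiv.Perm (Fin n))
    (hR : ∀ a b, R (e a) (e b) ↔ r a b) {x y : Fin n} (hxy : x ≠ y) :
    prob r x y = pr R (range n) (e x) (e y) := by
  have h1 : Nat.card {σ : Equiv.Perm (Fin n) // (∀ a b, r a b → σ a ≤ σ b) ∧ σ x < σ y} =
      le (addp R (e x) (e y)) (range n) := by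
    rw [← card_perm (addp R (e x) (e y)) e]
    refine Nat.card_congr (Equiv.subtypeEquivRight fun σ => ?_)
    constructor
    · rintro ⟨h1, h2⟩ a b (h3 | ⟨h3, h4⟩)
      · exact h1 a b ((hR a b).1 h3)
      · rw [e.injective (Fin.ext h3), e.injective (Fin.ext h4)]
        exact h2.le
    · intro h
      refine ⟨fun a b hab => h a b (Or.inl ((hR a b).2 hab)), ?_⟩
      exact lt_of_le_of_ne (h x y (Or.inr ⟨rfl, rfl⟩)) fun he => hxy (σ.injective he)
  have h2 : Nat.card {σ : Equiv.Perm (Fin n) // ∀ a b, r a b → σ a ≤ σ b} =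
      le R (range n) := by
    rw [← card_perm R e]
    exact Nat.card_congr (Equiv.subtypeEquivRight fun σ =>
      ⟨fun h a b hab => h a b ((hR a b).1 hab), fun h a b hab => h a b ((hR a b).2 hab)⟩)
  unfold prob pr
  rw [h1, h2]

/-- `i` and `j` are incomparable -/
def Inc (R : ℕ → ℕ → Prop) (n i j : ℕ) : Prop := i < n ∧ j < n ∧ ¬ R i j ∧ ¬ R j i

/-- the smaller of the two probabilities -/
noncomputable def mp (R : ℕ → ℕ → Prop) (n i j : ℕ) : ℝ :=
  min (pr R (range n) i j) (pr R (range n) j i)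

/-- the balance constant -/
noncomputable def bal (R : ℕ → ℕ → Prop) (n : ℕ) : ℝ :=
  sSup {t : ℝ | ∃ i j : ℕ, Inc R n i j ∧ t = mp R n i j}

theorem balance_eq {n : ℕ} {r : Fin n → Fin n → Prop} {R : ℕ → ℕ → Prop}
    (e : Equiv.Perm (Fin n)) (hR : ∀ a b, R (e a) (e b) ↔ r a b) (hr : ∀ a, r a a) :
    balance r = bal R n := by
  unfold balance bal
  congr 1
  ext t
  constructor
  · rintro ⟨x, y, h1, h2, rfl⟩
    have hxy : x ≠ y := fun h => h1 (h ▸ hr x)
    refine ⟨e x, e y, ⟨(e x).isLt, (e y).isLt, fun h => h1 ((hR x y).1 h),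
      fun h => h2 ((hR y x).1 h)⟩, ?_⟩
    rw [mp, prob_eq e hR hxy, prob_eq e hR hxy.symm]
  · rintro ⟨i, j, ⟨hi, hj, h1, h2⟩, rfl⟩
    obtain ⟨x, hx⟩ := e.surjective ⟨i, hi⟩
    obtain ⟨y, hy⟩ := e.surjective ⟨j, hj⟩
    have hx' : i = ((e x : Fin n) : ℕ) := by rw [hx]
    have hy' : j = ((e y : Fin n) : ℕ) := by rw [hy]
    subst hx'
    subst hy'
    rw [hR] at h1 h2
    have hxy : x ≠ y := fun h => h1 (h ▸ hr x)
    exact ⟨x, y, h1, h2, by rw [mp, prob_eq e hR hxy, prob_eq e hR hxy.symm]⟩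

theorem bal_finite (R : ℕ → ℕ → Prop) (n : ℕ) :
    {t : ℝ | ∃ i j : ℕ, Inc R n i j ∧ t = mp R n i j}.Finite := by
  refine Set.Finite.subset (((range n ×ˢ range n).image fun p => mp R n p.1 p.2).finite_toSet) ?_
  rintro t ⟨i, j, h, rfl⟩
  rw [mem_coe, mem_image]
  exact ⟨(i, j), mem_product.2 ⟨mem_range.2 h.1, mem_range.2 h.2.1⟩, rfl⟩

theorem le_bal {R : ℕ → ℕ → Prop} {n i j : ℕ} (h : Inc R n i j) : mp R n i j ≤ bal R n :=
  le_csSup (bal_finite R n).bddAbove ⟨i, j, h, rfl⟩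

theorem mp_nonneg (R : ℕ → ℕ → Prop) (n i j : ℕ) : 0 ≤ mp R n i j := by
  unfold mp pr
  positivity

theorem bal_nonneg (R : ℕ → ℕ → Prop) (n : ℕ) : 0 ≤ bal R n := by
  refine Real.sSup_nonneg ?_
  rintro t ⟨i, j, -, rfl⟩
  exact mp_nonneg R n i j

theorem bal_le {R : ℕ → ℕ → Prop} {n : ℕ} {c : ℝ} (hc : 0 ≤ c)
    (h : ∀ i j, Inc R n i j → mp R n i j ≤ c) : bal R n ≤ c := by
  refine Real.sSup_le ?_ hc
  rintro t ⟨i, j, hi, rfl⟩
  exact h i j hi

theorem bal_att (R : ℕ → ℕ → Prop) {n : ℕ} (hn : 0 < n) :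
    ∃ x, x < n ∧ ∀ c : ℝ, 0 ≤ c → (∀ y, Inc R n x y → mp R n x y ≤ c) → bal R n ≤ c := by
  by_cases hne : {t : ℝ | ∃ i j : ℕ, Inc R n i j ∧ t = mp R n i j}.Nonempty
  · obtain ⟨i, j, hij, he⟩ := hne.csSup_mem (bal_finite R n)
    refine ⟨i, hij.1, fun c _ h => ?_⟩
    unfold bal
    rw [he]
    exact h j hij
  · refine ⟨0, hn, fun c hc _ => ?_⟩
    unfold bal
    rw [Set.not_nonempty_iff_eq_empty.1 hne, Real.sSup_empty]
    exact hc

/-- an antichain -/
def Anti (R : ℕ → ℕ → Prop) (n : ℕ) (s : Finset ℕ) : Prop :=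
  s ⊆ range n ∧ ∀ a ∈ s, ∀ b ∈ s, a ≠ b → ¬ R a b

/-- the width is `w` -/
def Hw (R : ℕ → ℕ → Prop) (n w : ℕ) : Prop :=
  (∃ s, s.card = w ∧ Anti R n s) ∧ ∀ s, Anti R n s → s.card ≤ w

theorem width_iff {n : ℕ} {r : Fin n → Fin n → Prop} {R : ℕ → ℕ → Prop}
    (e : Equiv.Perm (Fin n)) (hR : ∀ a b, R (e a) (e b) ↔ r a b) (w : ℕ) :
    HasWidth r w ↔ Hw R n w := by
  have hinj : Function.Injective (fun a : Fin n => ((e a : Fin n) : ℕ)) := fun a b h =>
    e.injective (Fin.ext h)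
  have k1 : ∀ s : Finset (Fin n), IsAnti r s → ∃ t, t.card = s.card ∧ Anti R n t := by
    intro s hs
    refine ⟨s.image fun a => ((e a : Fin n) : ℕ), card_image_of_injective _ hinj, ?_, ?_⟩
    · intro i hi
      obtain ⟨a, -, rfl⟩ := mem_image.1 hi
      exact mem_range.2 (e a).isLt
    · intro i hi j hj hij
      obtain ⟨a, ha, rfl⟩ := mem_image.1 hi
      obtain ⟨b, hb, rfl⟩ := mem_image.1 hj
      rw [hR]
      exact hs a ha b hb fun h => hij (by rw [h])
  have k2 : ∀ t : Finset ℕ, Anti R n t → ∃ s : Finset (Fin n), s.card = t.card ∧ IsAnti r s := by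
    intro t ht
    refine ⟨univ.filter fun a => ((e a : Fin n) : ℕ) ∈ t, ?_, ?_⟩
    · have : t = (univ.filter fun a : Fin n => ((e a : Fin n) : ℕ) ∈ t).image
          (fun a : Fin n => ((e a : Fin n) : ℕ)) := by
        ext i
        rw [mem_image]
        constructor
        · intro hi
          obtain ⟨a, ha⟩ := e.surjective ⟨i, mem_range.1 (ht.1 hi)⟩
          exact ⟨a, by simp [ha, hi], by rw [ha]⟩
        · rintro ⟨a, ha, rfl⟩
          exact (mem_filter.1 ha).2
      conv_rhs => rw [this]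
      rw [card_image_of_injective _ hinj]
    · intro a ha b hb hab hr
      rw [mem_filter] at ha hb
      exact ht.2 _ ha.2 _ hb.2 (fun h => hab (hinj h)) ((hR a b).2 hr)
  constructor
  · rintro ⟨⟨s, hs, hs'⟩, h⟩
    obtain ⟨t, ht, ht'⟩ := k1 s hs'
    refine ⟨⟨t, by omega, ht'⟩, fun u hu => ?_⟩
    obtain ⟨v, hv, hv'⟩ := k2 u hu
    rw [← hv]
    exact h v hv'
  · rintro ⟨⟨s, hs, hs'⟩, h⟩
    obtain ⟨t, ht, ht'⟩ := k2 s hs'
    refine ⟨⟨t, by omega, ht'⟩, fun u hu => ?_⟩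
    obtain ⟨v, hv, hv'⟩ := k1 u hu
    rw [← hv]
    exact h v hv'

/-- antichains move along `Sim` -/
theorem anti_sim {D n n' W p i : ℕ} {R R' : ℕ → ℕ → Prop} (h' : NP D n' R') (hDW : D ≤ W)
    (hs : Sim R' n' R n W p i) {s : Finset ℕ} (ha : Anti R' n' s) (hps : p ∈ s)
    (hp : ∀ u ∈ s, p ≤ u) : ∃ t, t.card = s.card ∧ Anti R n t := by
  have hin : ∀ u ∈ s, u < n' ∧ p ≤ u ∧ u ≤ p + W := by
    intro u hu
    have hun := mem_range.1 (ha.1 hu)
    refine ⟨hun, hp u hu, ?_⟩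
    by_contra hcon
    push Not at hcon
    exact ha.2 p hps u hu (by omega) (h'.band p u hs.hp hun (by omega))
  refine ⟨s.image fun u => u + i - p, ?_, ?_, ?_⟩
  · refine card_image_of_injOn ?_
    intro u hu v hv huv
    have h1 := hin u hu
    have h2 := hin v hv
    simp only at huv
    omega
  · intro j hj
    obtain ⟨u, hu, rfl⟩ := mem_image.1 hj
    obtain ⟨h1, h2, h3⟩ := hin u hu
    exact mem_range.2 (hs.conv h1 h3 (by omega)).1
  · intro j hj k hk hjk
    obtain ⟨u, hu, rfl⟩ := mem_image.1 hj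
    obtain ⟨v, hv, rfl⟩ := mem_image.1 hk
    obtain ⟨h1, h2, h3⟩ := hin u hu
    obtain ⟨h1', h2', h3'⟩ := hin v hv
    rw [← hs.rel u v h1 h1' h3 (by omega) h3' (by omega)]
    exact ha.2 u hu v hv fun h => hjk (by rw [h])

theorem inc_sim {D n n' W x i m : ℕ} {R R' : ℕ → ℕ → Prop} (h : NP D n R) (h' : NP D n' R')
    (hD : 1 ≤ D) (hW : 2 * D * m + 2 * D ≤ W) (hs : Sim R' n' R n W x i) {y : ℕ}
    (hi : Inc R' n' x y) :
    mp R' n' x y ≤ bal R n + 4 * (1 - 1 / ((2 * D).factorial : ℝ)) ^ m := by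
  obtain ⟨hx, hy, h1, h2⟩ := hi
  have hxy : x < y + D ∧ y < x + D := by
    constructor
    · by_contra hcon
      push Not at hcon
      exact h2 (h'.band y x hy hx hcon)
    · by_contra hcon
      push Not at hcon
      exact h1 (h'.band x y hx hy hcon)
  have e1 := pr_sim h h' hD hW hs hx hy (by omega) (by omega) (by omega) (by omega)
  have e2 := pr_sim h h' hD hW hs hy hx (by omega) (by omega) (by omega) (by omega)
  have hWD : 2 * D ≤ W := le_trans (Nat.le_add_left _ _) hW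
  have hinc : Inc R n (x + i - x) (y + i - x) := by
    refine ⟨(hs.conv hx (by omega) (by omega)).1, (hs.conv hy (by omega) (by omega)).1, ?_, ?_⟩
    · rwa [← hs.rel x y hx hy (by omega) (by omega) (by omega) (by omega)]
    · rwa [← hs.rel y x hy hx (by omega) (by omega) (by omega) (by omega)]
  have e3 := le_bal hinc
  unfold mp at *
  rw [abs_le] at e1 e2
  rcases min_choice (pr R (range n) (x + i - x) (y + i - x)) (pr R (range n) (y + i - x) (x + i - x))
    with hc | hc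
  · rw [hc] at e3
    refine le_trans (min_le_left _ _) ?_
    linarith [e1.2]
  · rw [hc] at e3
    refine le_trans (min_le_right _ _) ?_
    linarith [e2.2]

/-- **Small witness, banded form.** -/
theorem main_np {D n m W w : ℕ} {R : ℕ → ℕ → Prop} (h : NP D n R) (hD : 1 ≤ D) (hn : 0 < n)
    (hW : 2 * D * m + 2 * D ≤ W) (hw : Hw R n w) :
    ∃ (k : ℕ) (R' : ℕ → ℕ → Prop), NP D k R' ∧
      k ≤ 3 * 2 ^ (D * (2 * W + 1)) + (2 * W + 1) + D ∧ Hw R' k w ∧
      |bal R' k - bal R n| ≤ 4 * (1 - 1 / ((2 * D).factorial : ℝ)) ^ m := by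
  have hWD : 2 * D ≤ W := le_trans (Nat.le_add_left _ _) hW
  obtain ⟨i1, hi1, hatt⟩ := bal_att R hn
  obtain ⟨⟨s, hs, hanti⟩, hmax⟩ := hw
  obtain ⟨i2, hi2, hmin⟩ : ∃ i2, i2 < n ∧ (s.Nonempty → i2 ∈ s ∧ ∀ u ∈ s, i2 ≤ u) := by
    by_cases hne : s.Nonempty
    · exact ⟨s.min' hne, mem_range.1 (hanti.1 (min'_mem s hne)),
        fun _ => ⟨min'_mem s hne, fun u hu => min'_le s u hu⟩⟩
    · exact ⟨0, hn, fun h => absurd h hne⟩
  obtain ⟨k, R', hR', hk, hall, ⟨p1, hp1⟩, ⟨p2, hp2⟩⟩ :=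
    cutting (D := D) (W := W) (by omega) n R h i1 i2 hi1 hi2
  have hfac : (1 : ℝ) ≤ ((2 * D).factorial : ℝ) := by exact_mod_cast Nat.factorial_pos _
  have hτ : (0 : ℝ) ≤ 4 * (1 - 1 / ((2 * D).factorial : ℝ)) ^ m := by
    have : (1 : ℝ) / ((2 * D).factorial : ℝ) ≤ 1 := by
      rw [div_le_one (by linarith)]
      exact hfac
    have h1 : (0 : ℝ) ≤ 1 - 1 / ((2 * D).factorial : ℝ) := by linarith
    positivity
  refine ⟨k, R', hR', hk, ⟨?_, ?_⟩, ?_⟩
  · rcases s.eq_empty_or_nonempty with rfl | hne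
    · exact ⟨∅, hs, empty_subset _, by simp⟩
    · obtain ⟨h1, h2⟩ := hmin hne
      obtain ⟨t, ht, ht'⟩ := anti_sim h (by omega) hp2.symm hanti h1 h2
      exact ⟨t, by omega, ht'⟩
  · intro t ht
    rcases t.eq_empty_or_nonempty with rfl | hne
    · simp
    · obtain ⟨i, hi⟩ := hall (t.min' hne) (mem_range.1 (ht.1 (min'_mem t hne)))
      obtain ⟨u, hu, hu'⟩ := anti_sim hR' (by omega) hi ht (min'_mem t hne)
        (fun u hu => min'_le t u hu)
      rw [← hu]
      exact hmax u hu'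
  · rw [abs_le]
    constructor
    · have : bal R n ≤ bal R' k + 4 * (1 - 1 / ((2 * D).factorial : ℝ)) ^ m := by
        refine hatt _ (by have := bal_nonneg R' k; linarith) fun y hy => ?_
        exact inc_sim hR' h hD hW hp1.symm hy
      linarith
    · have : bal R' k ≤ bal R n + 4 * (1 - 1 / ((2 * D).factorial : ℝ)) ^ m := by
        refine bal_le (by have := bal_nonneg R n; linarith) fun x y hxy => ?_
        obtain ⟨i, hi⟩ := hall x hxy.1
        exact inc_sim h hR' hD hW hi hxy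
      linarith

/-- thin posets are banded -/
theorem np_of_thin {n : ℕ} {r : Fin n → Fin n → Prop} (hP : IsPoset r) (e : Equiv.Perm (Fin n))
    (he : ∀ a b, r a b → e a ≤ e b) {B : ℕ}
    (hB : ∀ x : Fin n, Nat.card {y : Fin n // ¬ r x y ∧ ¬ r y x} ≤ B) : NP (2 * B) n (up r e) := by
  have hpre : ∀ i, i < n → ∃ a : Fin n, ((e a : Fin n) : ℕ) = i := by
    intro i hi
    obtain ⟨a, ha⟩ := e.surjective ⟨i, hi⟩
    exact ⟨a, by rw [ha]⟩
  refine ⟨?_, ?_, ?_, ?_⟩
  · intro i hi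
    obtain ⟨a, rfl⟩ := hpre i hi
    rw [up_iff]
    exact hP.1 a
  · intro i j hi hj hij
    obtain ⟨a, rfl⟩ := hpre i hi
    obtain ⟨b, rfl⟩ := hpre j hj
    rw [up_iff] at hij
    exact he a b hij
  · intro i j k hi hj hk h1 h2
    obtain ⟨a, rfl⟩ := hpre i hi
    obtain ⟨b, rfl⟩ := hpre j hj
    obtain ⟨c, rfl⟩ := hpre k hk
    rw [up_iff] at *
    exact hP.2.1 a b c h1 h2
  · intro i j hi hj hij
    obtain ⟨a, rfl⟩ := hpre i hi
    obtain ⟨b, rfl⟩ := hpre j hj
    rw [up_iff]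
    by_contra hab
    have hne : a ≠ b := fun h => hab (h ▸ hP.1 a)
    have hlt : ((e a : Fin n) : ℕ) < ((e b : Fin n) : ℕ) := by
      refine lt_of_le_of_ne (by omega) fun h => hne (e.injective (Fin.ext h))
    have hba : ¬ r b a := fun h => by
      have := he b a h
      rw [Fin.le_def] at this
      omega
    set A : Finset (Fin n) := univ.filter fun y => ¬ r a y ∧ ¬ r y a with hA
    set A' : Finset (Fin n) := univ.filter fun y => ¬ r b y ∧ ¬ r y b with hA'
    have hcA : A.card ≤ B := by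
      have := hB a
      rwa [Nat.card_eq_fintype_card, Fintype.card_subtype] at this
    have hcA' : A'.card ≤ B := by
      have := hB b
      rwa [Nat.card_eq_fintype_card, Fintype.card_subtype] at this
    have hsub : Icc (e a) (e b) ⊆ (A ∪ A').image e := by
      intro c hc
      obtain ⟨d, rfl⟩ := e.surjective c
      rw [mem_Icc] at hc
      refine mem_image_of_mem _ (mem_union.2 ?_)
      by_cases hda : d = a
      · right
        rw [hA', mem_filter, hda]
        exact ⟨mem_univ _, hba, hab⟩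
      by_cases hdb : d = b
      · left
        rw [hA, mem_filter, hdb]
        exact ⟨mem_univ _, hab, hba⟩
      have n1 : ¬ r d a := fun h => by
        exact hda (e.injective (le_antisymm (he d a h) hc.1))
      have n2 : ¬ r b d := fun h => by
        exact hdb (e.injective (le_antisymm hc.2 (he b d h)))
      by_cases h1 : r a d
      · right
        rw [hA', mem_filter]
        exact ⟨mem_univ _, n2, fun h2 => hab (hP.2.1 a d b h1 h2)⟩
      · left
        rw [hA, mem_filter]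
        exact ⟨mem_univ _, h1, n1⟩
    have h1 := card_le_card hsub
    rw [card_image_of_injective _ e.injective, Fin.card_Icc] at h1
    have h2 := card_union_le A A'
    omega

/-- **Small witness for thin posets.** -/
theorem main_thin {n : ℕ} {r : Fin n → Fin n → Prop} (hP : IsPoset r) {w B m : ℕ}
    (hw : HasWidth r w) (hB1 : 1 ≤ B)
    (hB : ∀ x : Fin n, Nat.card {y : Fin n // ¬ r x y ∧ ¬ r y x} ≤ B) :
    ∃ (k : ℕ) (r' : Fin k → Fin k → Prop), IsPoset r' ∧ HasWidth r' w ∧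
      k ≤ 3 * 2 ^ ((2 * B) * (2 * (2 * (2 * B) * m + 2 * (2 * B)) + 1)) +
        (2 * (2 * (2 * B) * m + 2 * (2 * B)) + 1) + 2 * B ∧
      |balance r' - balance r| ≤ 4 * (1 - 1 / ((2 * (2 * B)).factorial : ℝ)) ^ m := by
  rcases Nat.eq_zero_or_pos n with rfl | hn
  · refine ⟨0, r, hP, hw, Nat.zero_le _, ?_⟩
    rw [sub_self, abs_zero]
    have hfac : (1 : ℝ) ≤ ((2 * (2 * B)).factorial : ℝ) := by exact_mod_cast Nat.factorial_pos _
    have : (1 : ℝ) / ((2 * (2 * B)).factorial : ℝ) ≤ 1 := by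
      rw [div_le_one (by linarith)]
      exact hfac
    have h1 : (0 : ℝ) ≤ 1 - 1 / ((2 * (2 * B)).factorial : ℝ) := by linarith
    positivity
  obtain ⟨e, he⟩ := exists_nat hP
  have hnp := np_of_thin hP e he hB
  obtain ⟨k, R', hR', hk, hw', hbal⟩ := main_np hnp (by omega) hn
    (W := 2 * (2 * B) * m + 2 * (2 * B)) le_rfl ((width_iff e (up_iff r e) w).1 hw)
  refine ⟨k, fun a b => R' a b, ⟨fun a => hR'.refl a a.isLt, fun a b c h1 h2 =>
    hR'.trans a b c a.isLt b.isLt c.isLt h1 h2, fun a b h1 h2 => Fin.ext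
      (le_antisymm (hR'.le a b a.isLt b.isLt h1) (hR'.le b a b.isLt a.isLt h2))⟩, ?_, hk, ?_⟩
  · exact (width_iff (Equiv.refl _) (fun _ _ => Iff.rfl) w).2 hw'
  · have e1 := balance_eq (r := fun a b : Fin k => R' a b) (R := R') (Equiv.refl _)
      (fun _ _ => Iff.rfl) (fun a => hR'.refl a a.isLt)
    rw [e1, balance_eq e (up_iff r e) hP.1]
    exact hbal

end Pool.Agent.CMP
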